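import Mathlib

/-!
# Definitions for the hand-ins NoFormula, version 2

The first order language `0, 1, -, +, *, <, 2 ^ x`, case distinction, quotients by constants, `x / 2 ^ y`, all bitwise
operations, number and sum of the binary digits, with its structure on the integers, the universal sentences true in the
integers, and the sentences that infinitely many Fermat numbers, or numbers `n ^ n + 1` with `n = 2 ^ (2 ^ s)`, are composite.
-/

set_option autoImplicit false

open FirstOrder FirstOrder.Language

namespace Pool.Agent.UnivT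

/-- function symbols -/
inductive Fn : ℕ → Type
  | zero : Fn 0
  | one : Fn 0
  | neg : Fn 1
  | pow2 : Fn 1
  | length : Fn 1
  | digitSum : Fn 1
  | quot : ℕ → Fn 1
  | add : Fn 2
  | mul : Fn 2
  | shift : Fn 2
  | bitwise : (Bool → Bool → Bool) → Fn 2
  | ite : Fn 3

/-- relation symbols -/
inductive Rl : ℕ → Type
  | lt : Rl 2

/-- the language -/
def Lb : Language := ⟨Fn, Rl⟩

/-- interpretation of the function symbols in the integers: `2 ^ x` is `1` for negative `x`, `length` and `digitSum`
are the number and the sum of the binary digits of `|x|`, `quot c` is the floor of `x / c` (`0` for `c = 0`), `shift` the floor of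
`x / 2 ^ y` (`x` for negative `y`), `bitwise f` applies `f` to the binary digits in equal places (two's complement),
`ite x y z` is `y` if `0 ≤ x` and `z` otherwise -/
def fnInt : ∀ {n : ℕ}, Fn n → (Fin n → ℤ) → ℤ
  | _, .zero, _ => 0
  | _, .one, _ => 1
  | _, .neg, x => - x 0
  | _, .pow2, x => 2 ^ (x 0).toNat
  | _, .length, x => ((Nat.digits 2 (x 0).natAbs).length : ℕ)
  | _, .digitSum, x => ((Nat.digits 2 (x 0).natAbs).sum : ℕ)
  | _, .quot c, x => x 0 / (c : ℤ)
  | _, .add, x => x 0 + x 1
  | _, .mul, x => x 0 * x 1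
  | _, .shift, x => x 0 / 2 ^ (x 1).toNat
  | _, .bitwise f, x => Int.bitwise f (x 0) (x 1)
  | _, .ite, x => if 0 ≤ x 0 then x 1 else x 2

/-- interpretation of the relation symbols in the integers -/
def rlInt : ∀ {n : ℕ}, Rl n → (Fin n → ℤ) → Prop
  | _, .lt, x => x 0 < x 1

instance instLbInt : Lb.Structure ℤ where
  funMap := fnInt
  RelMap := rlInt

/-- the term `x + y` -/
def tAdd {α : Type} (x y : Lb.Term α) : Lb.Term α := Term.func (L := Lb) Fn.add ![x, y]
/-- the term `x * y` -/
def tMul {α : Type} (x y : Lb.Term α) : Lb.Term α := Term.func (L := Lb) Fn.mul ![x, y]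
/-- the term `2 ^ x` -/
def tPow {α : Type} (x : Lb.Term α) : Lb.Term α := Term.func (L := Lb) Fn.pow2 ![x]
/-- the term `1` -/
def tOne {α : Type} : Lb.Term α := Term.func (L := Lb) Fn.one ![]
/-- the variable number `i` -/
def tVar (i : Fin 4) : Lb.Term (Empty ⊕ Fin 4) := Term.var (Sum.inr i)
/-- the formula `x < y` -/
def fLt (x y : Lb.Term (Empty ⊕ Fin 4)) : Lb.BoundedFormula Empty 4 :=
  BoundedFormula.rel (L := Lb) Rl.lt ![x, y]

/-- the formula `m < n` and `1 < x` and `1 < y` and `x * y = 2 ^ (2 ^ t) + 1` for the variables `m, n, x, y` -/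
def matrix (t : Lb.Term (Empty ⊕ Fin 4)) : Lb.BoundedFormula Empty 4 :=
  (fLt (tVar 0) (tVar 1)) ⊓ (((fLt tOne (tVar 2)) ⊓ (fLt tOne (tVar 3))) ⊓
    (Term.bdEqual (tMul (tVar 2) (tVar 3)) (tAdd (tPow (tPow t)) tOne)))

/-- the sentence: for all `m` there are `n > m` and `x, y > 1` with `x * y = 2 ^ (2 ^ n) + 1` -/
def infinitelyManyComposite : Lb.Sentence := (matrix (tVar 1)).ex.ex.ex.all

/-- the sentence: for all `m` there are `s > m` and `x, y > 1` with `x * y = 2 ^ (2 ^ (s + 2 ^ s)) + 1`, that is
`x * y = n ^ n + 1` for `n = 2 ^ (2 ^ s)` -/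
def infinitelyManyCompositeNN : Lb.Sentence :=
  (matrix (tAdd (tVar 1) (tPow (tVar 1)))).ex.ex.ex.all

/-- the universal sentences true in the integers -/
def UnivTh : Lb.Theory := {φ | BoundedFormula.IsUniversal φ ∧ ℤ ⊨ φ}

end Pool.Agent.UnivT
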