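import Pool.Agent.helper36.UT.SpecB
import Pool.Agent.helper78.UT.TWA
import Pool.Agent.helper89.UT.PER
import Pool.Agent.helper5.UT.TWM
import Pool.Agent.helper5.UT.PWM
import Pool.Agent.helper76.UT.DOM
import Pool.Agent.helper23.UT.INS
import Pool.Agent.helper89.UT.NRM
import Pool.Agent.helper56.UT.SIG
import Pool.Agent.helper50.UT.LTR
import Pool.Agent.helper57.UT.LGD
import Pool.Agent.helper78.UT.LSU
import Pool.Agent.helper23.UT.AFF
import Pool.Agent.helper50.UT.MUL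
import Pool.Agent.helper60.UT.STD
import Pool.Agent.helper57.UT.MDL
import Pool.Agent.helper60.UT.FRA
import Pool.Agent.helper60.UT.DVC
import Pool.Agent.helper5.UT.POW
import Pool.Agent.helper49.UT.ITE
import Pool.Agent.helper27.UT.SHR
import Pool.Agent.helper27.UT.LEN
import Pool.Agent.helper6.UT.EPC
import Pool.Agent.helper56.UT.EPV
import Pool.Agent.helper23.UT.EPR
import Pool.Agent.helper35.UT.BTM
import Pool.Agent.helper6.UT.EPF
import Pool.Agent.helper76.UT.BWS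
import Pool.Agent.helper6.UT.PSP
import Pool.Agent.helper89.UT.MNE
import Pool.Agent.helper58.UT.BWL
import Pool.Agent.helper80.UT.PPL
import Pool.Agent.helper80.UT.GRI
import Pool.Agent.helper80.UT.GRM
import Pool.Agent.helper27.UT.COM
import Pool.Agent.helper5.UT.PLY
import Pool.Agent.helper42.UT.IRR
import Pool.Agent.helper20.UT.ODD
import Pool.Agent.helper76.UT.CSF
import Pool.Agent.helper97.UT.FAC
import Pool.Agent.helper56.UT.LNG
import Pool.Agent.helper97.UT.TRM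
import Pool.Agent.helper50.UT.MEA
import Pool.Agent.helper3.UT.FOA
import Pool.Agent.helper89.UT.FOB

/-!
# Project UT: assembly
-/

set_option autoImplicit false

open Filter Polynomial FirstOrder FirstOrder.Language

namespace Pool.Agent.UnivT

theorem pf_TWA : TWA_stmt := TWA
theorem pf_PER : PER_stmt := PER
theorem pf_TWM : TWM_stmt := TWM pf_TWA pf_PER
theorem pf_PWM : PWM_stmt := PWM pf_PER
theorem pf_DOM : DOM_stmt := DOM
theorem pf_INS : INS_stmt := INS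
theorem pf_NRM : NRM_stmt := NRM pf_INS
theorem pf_SIG : SIG_stmt := SIG pf_NRM pf_DOM
theorem pf_LTR : LTR_stmt := LTR pf_TWA
theorem pf_LGD : LGD_stmt := LGD pf_LTR pf_NRM pf_DOM
theorem pf_LSU : LSU_stmt := LSU pf_LGD
theorem pf_AFF : AFF_stmt := AFF pf_LGD
theorem pf_MUL : MUL_stmt := MUL pf_LGD
theorem pf_STD : STD_stmt := STD pf_LGD pf_NRM pf_DOM
theorem pf_MDL : MDL_stmt := MDL pf_TWM pf_PWM pf_STD
theorem pf_FRA : FRA_stmt := FRA pf_LGD pf_MDL
theorem pf_DVC : DVC_stmt := DVC pf_LGD pf_AFF pf_MDL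
theorem pf_POW : POW_stmt := POW pf_LGD
theorem pf_ITE : ITE_stmt := ITE pf_LGD pf_LSU
theorem pf_SHR : SHR_stmt := SHR pf_LGD pf_SIG pf_FRA
theorem pf_LEN : LEN_stmt := LEN pf_LGD pf_LSU pf_AFF pf_STD pf_DOM
theorem pf_EPC : EPC_stmt := EPC
theorem pf_EPV : EPV_stmt := EPV pf_LGD pf_EPC pf_MDL pf_AFF pf_POW
theorem pf_EPR : EPR_stmt := EPR
theorem pf_BTM : BTM_stmt := BTM
theorem pf_EPF : EPF_stmt := EPF pf_EPR pf_BTM
theorem pf_BWS : BWS_stmt := BWS
theorem pf_PSP : PSP_stmt := PSP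
theorem pf_MNE : MNE_stmt := MNE pf_LGD
theorem pf_BWL : BWL_stmt := BWL pf_LGD pf_STD pf_MNE pf_EPF pf_BWS pf_EPV pf_SHR pf_POW pf_MUL
theorem pf_PPL : PPL_stmt := PPL pf_LGD pf_LSU pf_AFF pf_STD pf_MNE pf_EPF pf_PSP pf_EPV pf_SHR
theorem pf_GRI : GRI_stmt := GRI pf_LGD pf_NRM pf_DOM
theorem pf_GRM : GRM_stmt := GRM pf_LGD pf_DOM pf_GRI
theorem pf_COM : COM_stmt := COM pf_LGD pf_GRM
theorem pf_PLY : PLY_stmt := PLY pf_LGD pf_COM pf_MDL
theorem pf_IRR : IRR_stmt := IRR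
theorem pf_ODD : ODD_stmt := ODD
theorem pf_CSF : CSF_stmt := CSF
theorem pf_FAC : FAC_stmt := FAC pf_LGD pf_LSU pf_MUL pf_POW pf_STD pf_ODD pf_PLY pf_IRR pf_CSF
theorem pf_LNG : LNG_stmt := LNG pf_LGD pf_LSU pf_AFF pf_MUL pf_POW pf_ITE pf_DVC pf_STD pf_SHR pf_LEN pf_PPL pf_BWL
theorem pf_TRM : TRM_stmt := TRM pf_LNG
theorem pf_MEA : MEA_stmt := MEA
theorem pf_FOA : FOA_stmt := FOA pf_LGD pf_TRM pf_FAC
theorem pf_FOB : FOB_stmt := FOB pf_LGD pf_TRM pf_FAC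
theorem pf_HER : HER_stmt := HER pf_LGD pf_TRM pf_FAC
theorem pf_HERN : HERN_stmt := HERN pf_HER

end Pool.Agent.UnivT
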