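import Pool.Agent.helper36.UT.Defs

/-!
# Project UT (MP_37e5fa_nt, MP_a70bdc_nt): true universal sentences do not prove that infinitely many Fermat numbers are composite

Model: functions `ℕ → ℤ` (argument `H`, for large `H`) built from the towers `tow (H - i)`: the class `RR` is closed under all
functions of the language, and `x * y = 2 ^ (2 ^ n) + 1` with `x, y, n` in `RR`, `n → ∞` forces `|x| = 1` or `|y| = 1`.
Every element of level `k + 1` is a finite sum `∑ q_i 2 ^ (e_i)`, `q_i` rational constants, `e_i` of level `k`.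
All statements are about large `H` (`∀ᶠ H in atTop`).
-/

set_option autoImplicit false

open Filter Polynomial FirstOrder FirstOrder.Language

namespace Pool.Agent.UnivT

/-! ## Definitions -/

/-- the tower `1, 2, 4, 16, 65536, ...` -/
def tow : ℕ → ℕ
  | 0 => 1
  | h + 1 => 2 ^ tow h

/-- level 0: rational combinations of `1` and finitely many `tow (H - i)` -/
def Lin (f : ℕ → ℤ) : Prop :=
  ∃ (a : ℚ) (n : ℕ) (b : ℕ → ℚ), ∀ᶠ H : ℕ in atTop,
    (f H : ℚ) = a + ∑ i ∈ Finset.range n, b i * (tow (H - i) : ℚ)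

/-- value of a finite sum of rational multiples of powers of `2` (integer exponents, maybe negative) -/
def ev (l : List (ℚ × (ℕ → ℤ))) (H : ℕ) : ℚ := (l.map fun x => x.1 * (2 : ℚ) ^ (x.2 H)).sum

/-- the levels -/
def Lev : ℕ → (ℕ → ℤ) → Prop
  | 0, f => Lin f
  | k + 1, f => ∃ l : List (ℚ × (ℕ → ℤ)), (∀ x ∈ l, Lev k x.2) ∧ ∀ᶠ H : ℕ in atTop, (f H : ℚ) = ev l H

/-- the class of all levels -/
def RR (f : ℕ → ℤ) : Prop := ∃ k, Lev k f

/-- eventually constant, or tending to `∞`, or tending to `-∞` -/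
def Tri (f : ℕ → ℤ) : Prop :=
  (∃ c : ℤ, ∀ᶠ H : ℕ in atTop, f H = c) ∨ Tendsto f atTop atTop ∨ Tendsto f atTop atBot

/-- the exponent of `x` minus the exponent of `y` tends to `∞` -/
def Far (x y : ℚ × (ℕ → ℤ)) : Prop := Tendsto (fun H => x.2 H - y.2 H) atTop atTop

/-- normal form: nonzero coefficients, the exponents decrease and their differences tend to `∞` -/
def NF (l : List (ℚ × (ℕ → ℤ))) : Prop := l.Pairwise Far ∧ ∀ x ∈ l, x.1 ≠ 0

/-- a class of functions with constants, closed under differences and eventual equality, all of whose members satisfy `Tri` -/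
def Good (C : (ℕ → ℤ) → Prop) : Prop :=
  (∀ c : ℤ, C fun _ => c) ∧ (∀ f g, C f → C g → C (fun H => f H - g H)) ∧
  (∀ f g, C f → (∀ᶠ H : ℕ in atTop, f H = g H) → C g) ∧ (∀ f, C f → Tri f)

/-- standard representation `f = q + ∑ q_i 2 ^ (e_i)` with `e_i → ∞`, `e_i - e_(i+1) → ∞`, `q_i ≠ 0` -/
def Std (k : ℕ) (q : ℚ) (l : List (ℚ × (ℕ → ℤ))) (f : ℕ → ℤ) : Prop :=
  (∀ x ∈ l, Lev k x.2 ∧ x.1 ≠ 0 ∧ Tendsto x.2 atTop atTop) ∧ l.Pairwise Far ∧
    ∀ᶠ H : ℕ in atTop, (f H : ℚ) = q + ev l H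

/-- eventually periodic binary digits -/
def EP (s : ℕ → Bool) : Prop := ∃ p N : ℕ, 0 < p ∧ ∀ i, N ≤ i → s (i + p) = s i

/-- the number with the binary digits `s 0, ..., s (L - 1)` -/
def val (s : ℕ → Bool) (L : ℕ) : ℤ := ∑ i ∈ Finset.range L, if s i then 2 ^ i else 0

/-- the number of digits `1` among `s 0, ..., s (L - 1)` -/
def cnt (s : ℕ → Bool) (L : ℕ) : ℤ := ∑ i ∈ Finset.range L, if s i then 1 else 0

/-- sum of the binary digits of `|x|` -/
def pop (x : ℤ) : ℤ := ((Nat.digits 2 x.natAbs).sum : ℕ)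

/-- product of two sums -/
def mulL (l m : List (ℚ × (ℕ → ℤ))) : List (ℚ × (ℕ → ℤ)) :=
  l.flatMap fun x => m.map fun y => (x.1 * y.1, fun H => x.2 H + y.2 H)

/-- linear functionals on sequences that kill the eventually constant ones -/
def Kill (φ : (ℕ → ℚ) →ₗ[ℚ] ℚ) : Prop := ∀ (g : ℕ → ℚ) (c : ℚ), (∀ᶠ H : ℕ in atTop, g H = c) → φ g = 0

/-- value of the functional at the exponent -/
def ph (φ : (ℕ → ℚ) →ₗ[ℚ] ℚ) (x : ℚ × (ℕ → ℤ)) : ℚ := φ fun H => (x.2 H : ℚ)

/-! ## Lemmas proved here -/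

theorem ev_nil (H : ℕ) : ev [] H = 0 := rfl

theorem ev_cons (x : ℚ × (ℕ → ℤ)) (l : List (ℚ × (ℕ → ℤ))) (H : ℕ) :
    ev (x :: l) H = x.1 * (2 : ℚ) ^ (x.2 H) + ev l H := by
  simp [ev]

theorem ev_append (l m : List (ℚ × (ℕ → ℤ))) (H : ℕ) : ev (l ++ m) H = ev l H + ev m H := by
  simp [ev]

theorem ev_mulOne (x : ℚ × (ℕ → ℤ)) (m : List (ℚ × (ℕ → ℤ))) (H : ℕ) :
    ev (m.map fun y => (x.1 * y.1, fun H => x.2 H + y.2 H)) H = x.1 * (2 : ℚ) ^ (x.2 H) * ev m H := by
  induction m with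
  | nil => simp [ev]
  | cons y m ihm =>
    rw [List.map_cons, ev_cons, ev_cons, mul_add, ihm]
    rw [zpow_add₀ (by norm_num : (2 : ℚ) ≠ 0)]
    ring

theorem ev_mulL (l m : List (ℚ × (ℕ → ℤ))) (H : ℕ) : ev (mulL l m) H = ev l H * ev m H := by
  induction l with
  | nil => simp [mulL, ev]
  | cons x l ih =>
    have h1 : mulL (x :: l) m = (m.map fun y => (x.1 * y.1, fun H => x.2 H + y.2 H)) ++ mulL l m := by
      simp [mulL]
    rw [h1, ev_append, ih, ev_cons, add_mul, ev_mulOne]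

/-! ## Rows: powers of two and towers -/

/-- **TWA** growth of the tower. Easy induction (`h < 2 ^ h`; `K * t ≤ 2 ^ t` for large `t`). -/
def TWA_stmt : Prop :=
  StrictMono tow ∧ (∀ h, h < tow h) ∧ ∀ K : ℕ, ∀ᶠ h : ℕ in atTop, K * tow h ≤ tow (h + 1)

/-- **PER** the powers of `2` modulo `c` are eventually periodic with a period `T < c` (`c > 1`). Proof: `c = 2 ^ a * b`, `b` odd,
`T = φ(b) < b` if `b > 1` (Euler, `Nat.ModEq.pow_totient`), `T = 1` if `b = 1`; `A = a`. -/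
def PER_stmt : Prop :=
  ∀ c : ℕ, 0 < c → ∃ T A : ℕ, 0 < T ∧ (T < c ∨ c = 1) ∧
    ∀ m n : ℕ, A ≤ m → A ≤ n → m % T = n % T → 2 ^ m % c = 2 ^ n % c

/-- **TWM** the tower is eventually constant modulo every `c`. Strong induction on `c` with PER: `tow h` is eventually constant modulo
`T < c` and `≥ A`, so `tow (h + 1) = 2 ^ tow h` is eventually constant modulo `c`. -/
def TWM_stmt : Prop := ∀ c : ℕ, 0 < c → ∃ r : ℕ, ∀ᶠ h : ℕ in atTop, tow h % c = r

/-- **PWM** the same for the powers `2 ^ f`. From PER. -/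
def PWM_stmt : Prop :=
  ∀ f : ℕ → ℤ, Tendsto f atTop atTop →
    (∀ c : ℕ, 0 < c → ∃ r : ℤ, ∀ᶠ H : ℕ in atTop, f H % c = r) →
    ∀ c : ℕ, 0 < c → ∃ r : ℤ, ∀ᶠ H : ℕ in atTop, (2 : ℤ) ^ (f H).toNat % c = r

/-! ## Rows: normal forms -/

/-- **DOM** a far larger exponent dominates. Induction on `l`: `|q| 2 ^ y ≤ (ε / 2) 2 ^ x` as soon as
`2 ^ (x - y) ≥ 2 |q| / ε`, true for large `H` because `x - y → ∞`. -/
def DOM_stmt : Prop :=
  ∀ (x : ℚ × (ℕ → ℤ)) (l : List (ℚ × (ℕ → ℤ))), (∀ y ∈ l, Far x y) →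
    ∀ ε : ℚ, 0 < ε → ∀ᶠ H : ℕ in atTop, |ev l H| ≤ ε * (2 : ℚ) ^ (x.2 H)

/-- **INS** insertion of one term into a normal form. Proof: if `x.1 = 0` take `l`. Induction on `l = y :: m`; `x.2 - y.2` is in `C`, so
satisfies Tri. Eventually constant `c`: replace `y` by `(y.1 + x.1 * 2 ^ c, y.2)`, or drop it if this coefficient is `0`.
`→ ∞`: `x :: y :: m` (`Far` is transitive: add). `→ -∞`: then `Far y x`; insert `x` into `m` by induction, put `y` in front. -/
def INS_stmt : Prop :=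
  ∀ C : (ℕ → ℤ) → Prop, Good C → ∀ (x : ℚ × (ℕ → ℤ)) (l : List (ℚ × (ℕ → ℤ))), C x.2 → (∀ y ∈ l, C y.2) → NF l →
    ∃ l', NF l' ∧ (∀ z ∈ l', z.2 = x.2 ∨ ∃ y ∈ l, z.2 = y.2) ∧ ∀ᶠ H : ℕ in atTop, ev (x :: l) H = ev l' H

/-- **NRM** every sum has a normal form with exponents among the given ones. Induction on `l` with INS. -/
def NRM_stmt : Prop :=
  ∀ C : (ℕ → ℤ) → Prop, Good C → ∀ l : List (ℚ × (ℕ → ℤ)), (∀ x ∈ l, C x.2) →
    ∃ l', NF l' ∧ (∀ z ∈ l', ∃ y ∈ l, z.2 = y.2) ∧ ∀ᶠ H : ℕ in atTop, ev l H = ev l' H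

/-- **SIG** the sign of a sum is eventually constant. NRM; `l' = []`: zero; `l' = x :: m`: by DOM with `ε = |x.1| / 2` the sign of
the sum is the sign of `x.1`. -/
def SIG_stmt : Prop :=
  ∀ C : (ℕ → ℤ) → Prop, Good C → ∀ l : List (ℚ × (ℕ → ℤ)), (∀ x ∈ l, C x.2) →
    (∀ᶠ H : ℕ in atTop, ev l H = 0) ∨ (∀ᶠ H : ℕ in atTop, 0 < ev l H) ∨ (∀ᶠ H : ℕ in atTop, ev l H < 0)

/-- **LTR** level 0 is good. Constants: `n = 0`. Differences: extend both coefficient sequences by `0` to `max n n'`. Tri: if all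
`b i` (`i < n`) are `0` then `f = a` eventually, constant. Otherwise let `i` be minimal with `b i ≠ 0`; by TWA
`tow (H - j) ≤ tow (H - i) / K` for `j > i` and large `H`, every `K`; so `|f H - b i * tow (H - i)| ≤ |b i| / 2 * tow (H - i)`
eventually, and `tow (H - i) → ∞`. -/
def LTR_stmt : Prop := Good Lin

/-- **LGD** every level is good. Induction. `k + 1`: constants `[(c, 0)]`; differences: append, negated coefficients; Tri: NRM gives a
normal form of `ev l`; `[]`: `f = 0` eventually. `x :: m`: Tri for `x.2` (level `k`). Constant `c`: by DOM `f - x.1 * 2 ^ c → 0`; `f` has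
integer values, so it is eventually constant (`|f H - x.1 * 2 ^ c| < 1/4` for all large `H`). `→ ∞`: DOM with
`ε = |x.1| / 2`: `f → ±∞`. `→ -∞`: `f → 0`, so `f = 0` eventually. -/
def LGD_stmt : Prop := ∀ k, Good (Lev k)

/-- **LSU** the levels increase. `k = 0`: for `H ≥ n`: `tow (H - i) = 2 ^ tow (H - (i + 1))`, so `f = ev` of
`(a, 0) :: [(b i, tow (H - (i + 1)))]`, the exponents are in `Lin`. `k + 1`: induction on the exponents. -/
def LSU_stmt : Prop := ∀ k f, Lev k f → Lev (k + 1) f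

/-- **AFF** rational affine functions with integer values. Direct (multiply the coefficients by `q`, add `q'` to the constant term). -/
def AFF_stmt : Prop :=
  ∀ (k : ℕ) (f g : ℕ → ℤ) (q q' : ℚ), Lev k f → (∀ᶠ H : ℕ in atTop, (g H : ℚ) = q * f H + q') → Lev k g

/-- **MUL** products. `ev_mulL`; the exponents `e + e' = e - (0 - e')` are in `Lev k` (LGD). -/
def MUL_stmt : Prop :=
  ∀ (k : ℕ) (f g : ℕ → ℤ), Lev (k + 1) f → Lev (k + 1) g → Lev (k + 1) fun H => f H * g H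

/-- **STD** standard representation. NRM: `f = ev l`, `l` in normal form, exponents in `Lev k`. By Tri (LGD) and `Far` the list is: first the
terms with exponent `→ ∞`, then at most one with eventually constant exponent `c` (it gives `q = q_i * 2 ^ c`), then those with
exponent `→ -∞`: call their list `m` (if there is no constant exponent, `q = 0`). Let `N ≥ 1` be a common denominator of `q` and of the coefficients of the first part;
eventually `N * (q + first part)` is an integer, so `N * ev m H` is an integer, and it tends to `0` (DOM with `x = (1, 0)`): it is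
eventually `0`. If `m` were not empty its head would dominate (DOM) and `ev m` would be nonzero. So `m = []`. -/
def STD_stmt : Prop := ∀ k f, Lev (k + 1) f → ∃ q l, Std k q l f

/-- **MDL** eventually constant modulo every `c`. Induction on `k`. `k = 0`: `N` a common denominator: `N f = A + ∑ B_i tow (H - i)` with
integers `A, B_i` is eventually constant modulo `N c` by TWM; `f` modulo `c` is `(N f` modulo `N c) / N`. `k + 1`: the same with
STD and PWM (the exponents are `→ ∞` and of level `k`). -/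
def MDL_stmt : Prop :=
  ∀ (k : ℕ) (f : ℕ → ℤ), Lev k f → ∀ c : ℕ, 0 < c → ∃ r : ℤ, ∀ᶠ H : ℕ in atTop, f H % c = r

/-- **FRA** integer part. `N ≥ 1` a common denominator of `q` and all coefficients; `g = N q + ∑ (N q_i) 2 ^ (e_i.toNat)` has integer
values, `g` is in `Lev (k + 1)` and `g H = N * (q + ev l H)` eventually; MDL: `g % N = r` eventually; `f = g / N`, `θ = r / N`. -/
def FRA_stmt : Prop :=
  ∀ (k : ℕ) (q : ℚ) (l : List (ℚ × (ℕ → ℤ))), (∀ x ∈ l, Lev k x.2 ∧ Tendsto x.2 atTop atTop) →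
    ∃ (f : ℕ → ℤ) (θ : ℚ), 0 ≤ θ ∧ θ < 1 ∧ ∀ᶠ H : ℕ in atTop, (f H : ℚ) = (q - θ) + ev l H

/-! ## Rows: the operations -/

/-- **DVC** quotients by constants. `c > 0`: MDL: `f / c = (f - r) / c`, AFF. `c = 0`: zero. -/
def DVC_stmt : Prop := ∀ (k : ℕ) (f : ℕ → ℤ) (c : ℕ), Lev k f → Lev k fun H => f H / (c : ℤ)

/-- **POW** powers of two. Tri: constant: constant; `→ ∞`: one term `(1, f)`; `→ -∞`: the value is `1`. -/
def POW_stmt : Prop := ∀ (k : ℕ) (f : ℕ → ℤ), Lev k f → Lev (k + 1) fun H => (2 : ℤ) ^ (f H).toNat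

/-- **ITE** case distinction: the sign of `f` is eventually constant (Tri). Choose a common level (LSU). -/
def ITE_stmt : Prop :=
  ∀ f g h : ℕ → ℤ, RR f → RR g → RR h → RR fun H => if 0 ≤ f H then g H else h H

/-- **SHR** shifts. `A` = the terms of `l` with `x.2 - E → ∞`; those with `x.2 - E` eventually constant `= c_x`; `B` = those with `x.2 - E → -∞`
(Tri for `x.2 - E`, level `k`). `q'' = ∑ x.1 * 2 ^ (c_x)`, `A'` = the terms of `A` with exponents `x.2 - E`. Then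
`f / 2 ^ E = q'' + ev A' + t`, `t = q * 2 ^ (-E) + ev B'`, `t → 0` and `t` has eventually constant sign (SIG). FRA for `q''`, `A'`:
`q'' + ev A' = g + θ`. So the floor is `g` or (if `θ = 0` and `t < 0`) `g - 1`: `l' = A'`, `q' = q'' - θ` or `q'' - θ - 1`. -/
def SHR_stmt : Prop :=
  ∀ (k : ℕ) (q : ℚ) (l : List (ℚ × (ℕ → ℤ))) (f E : ℕ → ℤ), Std k q l f → Lev k E → Tendsto E atTop atTop →
    ∃ q' l', Std k q' l' (fun H => f H / 2 ^ (E H).toNat) ∧ l'.length ≤ l.length ∧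
      ((∃ x ∈ l, ¬ Tendsto (fun H => x.2 H - E H) atTop atTop) → l'.length < l.length)

/-- **LEN** number of binary digits. If `f` is eventually constant: constant. `|f|` is eventually `f` or `-f`; so let `f → ∞`. STD: `f = q + ev l`,
`l = x :: m`, `x.1 > 0`; `f / 2 ^ (x.2) → x.1` (DOM). Choose the integer `c` with `2 ^ c ≤ x.1 < 2 ^ (c + 1)`. If `2 ^ c < x.1`:
eventually `2 ^ (x.2 + c) < f < 2 ^ (x.2 + c + 1)`, the length is `x.2 + c + 1`. If `x.1 = 2 ^ c`: eventually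
`2 ^ (x.2 + c - 1) < f < 2 ^ (x.2 + c + 1)`, and the sign of `f - 2 ^ (x.2 + c)` is eventually constant
(it is in `Lev (k + 1)`, LGD): the length is `x.2 + c` or `x.2 + c + 1`. (`Nat.digits_len`, `Nat.log`.) -/
def LEN_stmt : Prop :=
  ∀ (k : ℕ) (f : ℕ → ℤ), Lev (k + 1) f → Lev (k + 1) fun H => ((Nat.digits 2 (f H).natAbs).length : ℤ)

/-- **EPC** values of eventually periodic digits, one residue class of the length. With `p, N` from `EP`, `N' ≥ N` in the class of `ρ` modulo `p`, `L = N' + p w`: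
`val s L = val s N' + 2 ^ N' * P * (2 ^ (p w) - 1) / (2 ^ p - 1)`, `P = ∑_(i<p) s (N' + i) 2 ^ i`; `cnt s L = cnt s N' + w * Q`. -/
def EPC_stmt : Prop :=
  ∀ s : ℕ → Bool, EP s → ∃ p : ℕ, 0 < p ∧ ∀ ρ : ℕ, ∃ (a b c d : ℚ) (A : ℕ), ∀ L : ℕ, A ≤ L → L % p = ρ % p →
    (val s L : ℚ) = a + b * 2 ^ L ∧ (cnt s L : ℚ) = c + d * L

/-- **EPV** EPC and MDL (`E` modulo `p` is eventually constant), AFF, POW. -/
def EPV_stmt : Prop :=
  ∀ (k : ℕ) (s : ℕ → Bool) (E : ℕ → ℤ), EP s → Lev k E → Tendsto E atTop atTop →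
    Lev (k + 1) (fun H => val s (E H).toNat) ∧ Lev k (fun H => cnt s (E H).toNat)

/-- **EPR** the 2-adic digits of `a / b`. Put `a_0 = a`, `s_i = (a_i` odd`)`, `a_(i+1) = (a_i - b * s_i) / 2` (exact, `b` odd). Then
`a = b * val s L + 2 ^ L * a_L` by induction, and `|a_i| ≤ max |a| b`, so by the pigeonhole principle `a_i = a_(i+p)` for some `i` and `p > 0`,
hence for all larger `i`: `s` is eventually periodic. -/
def EPR_stmt : Prop :=
  ∀ (a : ℤ) (b : ℕ), b % 2 = 1 → ∃ s : ℕ → Bool, EP s ∧ ∀ L : ℕ, ∃ t : ℤ, a = b * val s L + 2 ^ L * t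

/-- **BTM** congruence modulo `2 ^ L` gives the first `L` digits. Induction on `L` (`Int.testBit`, `Int.bodd`, `Int.div2`) or `m % 2 ^ L`. -/
def BTM_stmt : Prop :=
  ∀ (m : ℤ) (s : ℕ → Bool) (L : ℕ), (2 : ℤ) ^ L ∣ m - val s L → ∀ i : ℕ, i < L → m.testBit i = s i

/-- **EPF** the low digits of `f`. Common denominator `N = 2 ^ c * b`, `b` odd: `N f = A + ∑ A_i 2 ^ (e_i)` with integers. For large `H` all
`e_i ≥ c`, so `2 ^ c ∣ A` (if `l = []` also: `N f = A`); `A = 2 ^ c a`. EPR for `a, b`: `s`. `C = c`. If `e_i ≥ E + c` then `b f = a` modulo `2 ^ E`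
(`E H ≥ 0`; otherwise nothing to prove), so `b (f - val s E) = 0` modulo `2 ^ E`, `f = val s E` modulo `2 ^ E`, BTM. -/
def EPF_stmt : Prop :=
  ∀ (k : ℕ) (q : ℚ) (l : List (ℚ × (ℕ → ℤ))) (f : ℕ → ℤ), Std k q l f →
    ∃ (s : ℕ → Bool) (C : ℤ), EP s ∧ ∀ E : ℕ → ℤ, (∀ x ∈ l, ∀ᶠ H : ℕ in atTop, E H + C ≤ x.2 H) →
      ∀ᶠ H : ℕ in atTop, ∀ i : ℕ, (i : ℤ) < E H → (f H).testBit i = s i

/-- **BWS** splitting of a bitwise operation at the place `L`. Induction on `L` from `Int.bitwise_bit` (`m = Int.bit (m.bodd) (m / 2)`). -/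
def BWS_stmt : Prop :=
  ∀ (β : Bool → Bool → Bool) (m n : ℤ) (L : ℕ),
    Int.bitwise β m n = val (fun i => β (m.testBit i) (n.testBit i)) L + 2 ^ L * Int.bitwise β (m / 2 ^ L) (n / 2 ^ L)

/-- **PSP** splitting of the digit sum. Induction on `L`: `pop m = (m odd) + pop (m / 2)` for `m ≥ 0` (`Nat.digits_def'`). -/
def PSP_stmt : Prop :=
  ∀ (m : ℤ) (L : ℕ), 0 ≤ m → pop m = cnt (fun i => m.testBit i) L + pop (m / 2 ^ L)

/-- **MNE** a smallest exponent up to a constant. Induction on `l`, Tri for the difference of two exponents (LGD). -/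
def MNE_stmt : Prop :=
  ∀ (k : ℕ) (l : List (ℚ × (ℕ → ℤ))), l ≠ [] → (∀ x ∈ l, Lev k x.2) →
    ∃ x ∈ l, ∃ C : ℤ, ∀ y ∈ l, ∀ᶠ H : ℕ in atTop, x.2 H + C ≤ y.2 H

/-- **BWL** bitwise operations. By STD take standard representations `q, l` of `f` and `q', l'` of `g`; induction on `l.length + l'.length`.
Both empty: `f`, `g` eventually constant. Otherwise MNE for `l ++ l'`: `x, C`; let `C1, s`, `C2, t` be from EPF for `f`, `g`;
`E = x.2 - D`, `D` a natural number with `x.2 + C ≥ E + C1, E + C2`, that is `D ≥ C1 - C, C2 - C`. `E` is in `Lev k`, `E → ∞`. BWS with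
`L = E`: the low part is eventually `val (fun i => β (s i) (t i)) E`, in `Lev (k + 1)` by EPV (the sequence is EP); the high part is `2 ^ E` times the bitwise operation of
the shifted numbers, which have standard representations of not larger length, one of them smaller (SHR, `x.2 - E = D` is constant): induction, POW, MUL, sum. -/
def BWL_stmt : Prop :=
  ∀ (k : ℕ) (β : Bool → Bool → Bool) (f g : ℕ → ℤ), Lev (k + 1) f → Lev (k + 1) g →
    Lev (k + 1) fun H => Int.bitwise β (f H) (g H)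

/-- **PPL** digit sums. `pop f = pop (-f)`, so let `f ≥ 0` eventually (Tri; eventually constant: constant). Induction on the length of a standard representation as in BWL
with PSP: `pop f = cnt s E + pop (f / 2 ^ E)`. -/
def PPL_stmt : Prop := ∀ (k : ℕ) (f : ℕ → ℤ), Lev (k + 1) f → Lev (k + 1) fun H => pop (f H)

/-! ## Rows: factors of `2 ^ (2 ^ n) + 1` -/

/-- **GRI** graded independence. Let `n1` be the normal form (NRM, `C = Lev k`) of the filtered list and `n2` the one of the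
rest (`ph φ x ≠ μ`); their exponents are among the exponents of the two lists, so `ph φ` is `μ` on `n1` and `≠ μ` on `n2` (`ph φ x` depends only on `x.2`).
`ev n1 + ev n2 = ev l = 0` eventually. If `n1 = []` we are done. Otherwise let `x` be its head. `n2 = []`: `ev n1` is eventually nonzero by DOM, contradiction.
`n2 = y :: _`: `x.2 - y.2` is not eventually constant (`φ` would kill it, Kill, linearity), so `Far x y` or `Far y x`; the larger of the two
heads dominates everything else in both lists (DOM), so `ev n1 + ev n2` is eventually nonzero, contradiction. -/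
def GRI_stmt : Prop :=
  ∀ (k : ℕ) (φ : (ℕ → ℚ) →ₗ[ℚ] ℚ), Kill φ → ∀ l : List (ℚ × (ℕ → ℤ)), (∀ x ∈ l, Lev k x.2) →
    (∀ᶠ H : ℕ in atTop, ev l H = 0) → ∀ μ : ℚ,
      ∀ᶠ H : ℕ in atTop, ev (l.filter fun x => decide (ph φ x = μ)) H = 0

/-- **GRM** the terms of largest degree do not cancel. Otherwise apply GRI to `mulL l1 l2` followed by the negatives of `l3`, `μ = M1 + M2`: the filter of
the negatives is empty, the filter of `mulL l1 l2` consists of the products of the `x ∈ l1` with `ph φ x = M1` and the `y ∈ l2` with `ph φ y = M2` (`ph φ` is additive),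
so `ev` of it is `ev (l1.filter ..) * ev (l2.filter ..)`; both factors are nonempty normal forms (sublists), so eventually nonzero by DOM. -/
def GRM_stmt : Prop :=
  ∀ (k : ℕ) (φ : (ℕ → ℚ) →ₗ[ℚ] ℚ), Kill φ → ∀ l1 l2 l3 : List (ℚ × (ℕ → ℤ)),
    (∀ x ∈ l1, Lev k x.2) → (∀ x ∈ l2, Lev k x.2) → (∀ x ∈ l3, Lev k x.2) → NF l1 → NF l2 →
    (∀ᶠ H : ℕ in atTop, ev l1 H * ev l2 H = ev l3 H) → ∀ M1 M2 : ℚ,
    (∀ x ∈ l1, ph φ x ≤ M1) → (∃ x ∈ l1, ph φ x = M1) → (∀ x ∈ l2, ph φ x ≤ M2) → (∃ x ∈ l2, ph φ x = M2) →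
    ∃ z ∈ l3, ph φ z = M1 + M2

/-- **COM** the exponents of a factor of `1 + 2 ^ u` are rational multiples of `u` up to constants. Let `K` be the subspace of the eventually constant
elements of `ℕ → ℚ`. If `y.2` is not in `K + ℚ u`, there is a linear `φ` killing `K` and `u` with `φ (y.2) ≠ 0` (`Submodule.exists_le_ker_of_notMem`). Let
`M1, m1` be the maximum and minimum of `ph φ` on `l1`, `M2, m2` on `l2`. GRM with `l3 = [(1, 0), (1, u)]` (both degrees `0`) gives `M1 + M2 = 0`, and for `-φ`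
`m1 + m2 = 0`. So `M1 = m1` (and `M2 = m2`): `ph φ` is constant on `l1`, and `0` at the eventually constant exponent; contradiction. -/
def COM_stmt : Prop :=
  ∀ (k : ℕ) (l1 l2 : List (ℚ × (ℕ → ℤ))) (u : ℕ → ℤ), (∀ x ∈ l1, Lev k x.2) → (∀ x ∈ l2, Lev k x.2) → Lev k u →
    NF l1 → NF l2 → l2 ≠ [] → (∃ x ∈ l1, ∃ c : ℤ, ∀ᶠ H : ℕ in atTop, x.2 H = c) →
    (∀ᶠ H : ℕ in atTop, ev l1 H * ev l2 H = 1 + (2 : ℚ) ^ (u H)) →
    ∀ y ∈ l1, ∃ α γ : ℚ, ∀ᶠ H : ℕ in atTop, (y.2 H : ℚ) = α * u H + γ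

/-- **PLY** the factors are polynomials in `2 ^ w`. COM for `l1 ++ [(q1, 0)]`, `l2 ++ [(q2, 0)]` and in the other order (normal forms: `e - 0 → ∞`). So all exponents in `l1`, `l2`
are `α u + γ` eventually. Let `d ≥ 1` be a common denominator of all `α`, `u = d w + r` with `w = u / d`, `r = u % d` eventually constant (MDL), `w → ∞`.
Then `e = (α d) w + c`, `α d` an integer, `c = e - (α d) w` an integer constant, and `α d > 0` since `e → ∞`, `w → ∞`. So `x = P(2 ^ w)` with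
`P = q1 + ∑ q_e 2 ^ c X ^ (α d)`, the same for `y`; `P * Q` and `1 + 2 ^ r X ^ d` agree at the infinitely many points `2 ^ (w H)`. -/
def PLY_stmt : Prop :=
  ∀ (k : ℕ) (q1 : ℚ) (l1 : List (ℚ × (ℕ → ℤ))) (x : ℕ → ℤ) (q2 : ℚ) (l2 : List (ℚ × (ℕ → ℤ))) (y u : ℕ → ℤ),
    Std k q1 l1 x → Std k q2 l2 y → q1 ≠ 0 → q2 ≠ 0 → Lev k u → Tendsto u atTop atTop →
    (∀ᶠ H : ℕ in atTop, (x H : ℚ) * y H = 1 + (2 : ℚ) ^ (u H)) →
    ∃ (d r : ℕ) (w : ℕ → ℤ) (P Q : ℚ[X]), 0 < d ∧ Tendsto w atTop atTop ∧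
      (∀ᶠ H : ℕ in atTop, u H = d * w H + r) ∧ P * Q = 1 + C ((2 : ℚ) ^ r) * X ^ d ∧
      (∀ᶠ H : ℕ in atTop, (x H : ℚ) = P.eval ((2 : ℚ) ^ (w H))) ∧
      (∀ᶠ H : ℕ in atTop, (y H : ℚ) = Q.eval ((2 : ℚ) ^ (w H)))

/-- **IRR** `1 + 2 ^ r X ^ d` is irreducible over `ℚ` if `2 ^ n = d w + r`, `d ≤ n`. Let `d = 2 ^ j d'`, `d'` odd; `2 ^ j ≤ d ≤ n` gives `j ≤ n`, so `2 ^ j ∣ r`,
`r = 2 ^ j r'`; an odd prime dividing `d` and `r` would divide `2 ^ n`: so `d'` and `r'` are coprime. Let `α` be a complex root of an irreducible factor of degree `m`,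
`α ^ d = -2 ^ (-r)`. (1) `(2 ^ r' α ^ d') ^ (2 ^ j) = -1`, so `ℚ(α)` contains a primitive root of unity of order `2 ^ (j+1)`: `2 ^ j ∣ m`. (2) All roots have absolute value
`2 ^ (-r' / d')`, the constant term of the monic factor is rational of absolute value `2 ^ (-r' m / d')`: its `d'`-th power is `2 ^ (-r' m)`, so
`d' ∣ r' m`, `d' ∣ m`. So `d ∣ m`. (Or Mathlib: `X_pow_mul_sub_C_irreducible`, `X_pow_sub_C_irreducible_iff_of_odd`.) -/
def IRR_stmt : Prop :=
  ∀ d n w r : ℕ, 0 < d → d ≤ n → 2 ^ n = d * w + r → ∀ P Q : ℚ[X],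
    P * Q = 1 + C ((2 : ℚ) ^ r) * X ^ d → P.natDegree = 0 ∨ Q.natDegree = 0

/-- **ODD** a function without constant term has even values. `N = 2 ^ c b` a common denominator (`b` odd): `N x = ∑ A_i 2 ^ (e_i)`, all `e_i ≥ c + 1` for
large `H`, so `2 ^ (c + 1) ∣ 2 ^ c b x`. -/
def ODD_stmt : Prop :=
  ∀ (k : ℕ) (l : List (ℚ × (ℕ → ℤ))) (x : ℕ → ℤ), Std k 0 l x → ∀ᶠ H : ℕ in atTop, (2 : ℤ) ∣ x H

/-- **CSF** a constant dividing Fermat numbers of unbounded index is a unit: two different Fermat numbers are coprime (`Nat.coprime_fermatNumber_fermatNumber`). -/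
def CSF_stmt : Prop :=
  ∀ (a : ℤ) (n : ℕ → ℤ), Tendsto n atTop atTop →
    (∀ᶠ H : ℕ in atTop, a ∣ 2 ^ (2 ^ (n H).toNat) + 1) → |a| = 1

/-- **FAC** no proper factorisation in the class `RR`. `x y - 2 ^ (2 ^ n) - 1` is in `RR` and zero for infinitely many `H`, so eventually zero (Tri). Choose `k` with
`x, y ∈ Lev (k + 1)`, `u = 2 ^ n ∈ Lev k`, STD; `q1, q2 ≠ 0` by ODD (the product is odd, `u → ∞`). PLY; `n H ≥ d`, `w H ≥ 0` for large `H`, IRR: one of `P, Q` is constant, say `P`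
(the other case is symmetric): `x = a` eventually, `a` an integer dividing `2 ^ (2 ^ n) + 1` eventually: CSF. -/
def FAC_stmt : Prop :=
  ∀ x y n : ℕ → ℤ, RR x → RR y → RR n → Tendsto n atTop atTop →
    (∃ᶠ H : ℕ in atTop, x H * y H = 2 ^ (2 ^ (n H).toNat) + 1) →
    ∀ᶠ H : ℕ in atTop, |x H| = 1 ∨ |y H| = 1

/-! ## Rows: logic -/

/-- **LNG** the class `RR` is closed under the functions of the language. `cases` on the symbol; choose a common level (LSU), LGD, AFF, MUL, POW, ITE, DVC, SHR (if `E` is eventually constant: DVC with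
`c = 2 ^ E.toNat`; `E → -∞`: `f / 1`; `E → ∞`: STD and SHR, a standard representation gives level `k + 1`), LEN, PPL, BWL. -/
def LNG_stmt : Prop :=
  ∀ {n : ℕ} (F : Fn n) (g : Fin n → ℕ → ℤ), (∀ i, RR (g i)) → RR fun H => fnInt F fun i => g i H

/-- **TRM** terms. Induction on `t` with LNG. -/
def TRM_stmt : Prop :=
  ∀ {β : Type} (v : β → ℕ → ℤ), (∀ b, RR (v b)) → ∀ t : Lb.Term β, RR fun H => t.realize fun b => v b H

/-- **MEA** the meaning of the two sentences in the integers. As FOQb of the landed file `helper36/NF/FOQb.lean` (`BoundedFormula.realize_all`, ...; negative `m` and `n` are harmless: `F_0 = 3` is prime). -/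
def MEA_stmt : Prop :=
  (ℤ ⊨ infinitelyManyComposite ↔ {n : ℕ | ¬ (Nat.fermatNumber n).Prime}.Infinite) ∧
  (ℤ ⊨ infinitelyManyCompositeNN ↔
    {s : ℕ | ¬ ((2 ^ 2 ^ s) ^ (2 ^ 2 ^ s) + 1 : ℕ).Prime}.Infinite)

/-- **FOA** the theorem for Fermat numbers. As `helper29/NF/FOM.lean` with `U` = `hyperfilter ℕ` (`≤ atTop`), `x0` = class of `fun H => (tow H : ℤ)` (in `RR`: level 0), `S` = closure of `x0` in the ultrapower;
every element of `S` is the class of a function in `RR` (TRM). Instantiate `m = x0`: `n, x, y ∈ S` with `m < n`, `1 < x`, `1 < y`, `x y = 2 ^ (2 ^ n) + 1`; represent by functions in `RR`; these relations hold for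
the `H` in a set of `U`, so for infinitely many `H`; `n → ∞` by Tri (`n H > tow H > H` infinitely often); FAC: `|x H| = 1` or `|y H| = 1` for all large `H`; contradiction. -/
def FOA_stmt : Prop := ¬ (UnivTh ⊨ᵇ infinitelyManyComposite)

/-- **FOB** the same with `s + 2 ^ s` in place of `n` (in `RR` and `→ ∞` with `s`). -/
def FOB_stmt : Prop := ¬ (UnivTh ⊨ᵇ infinitelyManyCompositeNN)

end Pool.Agent.UnivT
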