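import Pool.Agent.helper36.UT.Spec

/-!
# Project UT: the theorem on finite lists of formulas
-/

set_option autoImplicit false

open Filter Polynomial FirstOrder FirstOrder.Language

namespace Pool.Agent.UnivT

/-- **HER** finitely many formulas `(n, x, y)` in one variable `m`: there is a constant `c` such that for every sufficiently high tower `m`
no formula of the list gives a factorisation of a Fermat number with index larger than `c` -/
def HER_stmt : Prop :=
  ∀ A : List (Lb.Term (Fin 1) × Lb.Term (Fin 1) × Lb.Term (Fin 1)), ∃ c : ℤ, ∀ᶠ H : ℕ in atTop, ∀ t ∈ A,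
    ∀ n x y : ℤ, n = t.1.realize (fun _ => (tow H : ℤ)) → x = t.2.1.realize (fun _ => (tow H : ℤ)) →
      y = t.2.2.realize (fun _ => (tow H : ℤ)) → c < n → 1 < x → 1 < y → x * y ≠ 2 ^ (2 ^ n.toNat) + 1

theorem HER_tow : RR fun H => (tow H : ℤ) :=
  ⟨0, 0, 1, fun _ => 1, Eventually.of_forall fun H => by simp⟩

theorem HER (hLGD : LGD_stmt) (hTRM : TRM_stmt) (hFAC : FAC_stmt) : HER_stmt := by
  intro A
  induction A with
  | nil => exact ⟨0, Eventually.of_forall fun H t ht => absurd ht (by simp)⟩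
  | cons t A ih =>
    obtain ⟨c, hc⟩ := ih
    have hn := hTRM (fun (_ : Fin 1) (H : ℕ) => (tow H : ℤ)) (fun _ => HER_tow) t.1
    have hx := hTRM (fun (_ : Fin 1) (H : ℕ) => (tow H : ℤ)) (fun _ => HER_tow) t.2.1
    have hy := hTRM (fun (_ : Fin 1) (H : ℕ) => (tow H : ℤ)) (fun _ => HER_tow) t.2.2
    have key : ∃ c' : ℤ, ∀ᶠ H : ℕ in atTop,
        ∀ n x y : ℤ, n = t.1.realize (fun _ => (tow H : ℤ)) → x = t.2.1.realize (fun _ => (tow H : ℤ)) →
          y = t.2.2.realize (fun _ => (tow H : ℤ)) → c' < n → 1 < x → 1 < y → x * y ≠ 2 ^ (2 ^ n.toNat) + 1 := by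
      obtain ⟨k, hk⟩ := hn
      rcases (hLGD k).2.2.2 _ hk with ⟨c0, h0⟩ | h0 | h0
      · refine ⟨c0, h0.mono fun H hH n x y h1 h2 h3 h4 => ?_⟩
        have hH' : t.1.realize (fun _ => (tow H : ℤ)) = c0 := hH
        rw [h1, hH'] at h4
        exact absurd h4 (lt_irrefl _)
      · refine ⟨0, ?_⟩
        by_contra hcon
        rw [Filter.not_eventually] at hcon
        have hfr : ∃ᶠ H : ℕ in atTop, t.2.1.realize (fun _ => (tow H : ℤ)) * t.2.2.realize (fun _ => (tow H : ℤ)) =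
            2 ^ (2 ^ (t.1.realize (fun _ => (tow H : ℤ))).toNat) + 1 := by
          refine hcon.mono fun H hH => ?_
          push Not at hH
          obtain ⟨n, x, y, h1, h2, h3, h4, h5, h6, h7⟩ := hH
          rw [← h1, ← h2, ← h3, h7]
        have hE := hFAC _ _ _ hx hy ⟨k, hk⟩ h0 hfr
        obtain ⟨H, hH1, hH2⟩ := (hcon.and_eventually hE).exists
        push Not at hH1
        obtain ⟨n, x, y, h1, h2, h3, h4, h5, h6, h7⟩ := hH1
        rw [← h2, ← h3] at hH2
        rcases hH2 with h | h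
        · rw [abs_of_pos (by omega)] at h; omega
        · rw [abs_of_pos (by omega)] at h; omega
      · refine ⟨0, (h0.eventually (eventually_lt_atBot (0 : ℤ))).mono fun H hH n x y h1 h2 h3 h4 => ?_⟩
        rw [h1] at h4
        exact absurd (lt_trans h4 hH) (lt_irrefl _)
    obtain ⟨c', hc'⟩ := key
    refine ⟨max c c', ?_⟩
    filter_upwards [hc, hc'] with H h1 h2 s hs n x y hn' hx' hy' hlt
    rcases List.mem_cons.1 hs with rfl | hs
    · exact h2 n x y hn' hx' hy' (lt_of_le_of_lt (le_max_right _ _) hlt)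
    · exact h1 s hs n x y hn' hx' hy' (lt_of_le_of_lt (le_max_left _ _) hlt)

/-- **HERN** the same for `n ^ n + 1`, `n = 2 ^ (2 ^ s)` -/
def HERN_stmt : Prop :=
  ∀ A : List (Lb.Term (Fin 1) × Lb.Term (Fin 1) × Lb.Term (Fin 1)), ∃ c : ℕ, ∀ᶠ H : ℕ in atTop, ∀ t ∈ A,
    ∀ (s n : ℕ) (x y : ℤ), (s : ℤ) = t.1.realize (fun _ => (tow H : ℤ)) → x = t.2.1.realize (fun _ => (tow H : ℤ)) →
      y = t.2.2.realize (fun _ => (tow H : ℤ)) → c < s → n = 2 ^ (2 ^ s) → 1 < x → 1 < y → x * y ≠ (n : ℤ) ^ n + 1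

theorem HERN (hHER : HER_stmt) : HERN_stmt := by
  intro A
  obtain ⟨c, hc⟩ := hHER (A.map fun t => (tAdd t.1 (tPow t.1), t.2.1, t.2.2))
  refine ⟨c.toNat, hc.mono fun H hH t ht s n x y hs hx hy hcs hn h1 h2 h3 => ?_⟩
  have hm : (tAdd t.1 (tPow t.1), t.2.1, t.2.2) ∈
      A.map fun t => (tAdd t.1 (tPow t.1), t.2.1, t.2.2) :=
    List.mem_map.2 ⟨t, ht, rfl⟩
  have hr : ((s + 2 ^ s : ℕ) : ℤ) = (tAdd t.1 (tPow t.1)).realize
      (fun (_ : Fin 1) => (tow H : ℤ)) := by
    have h0 : (tAdd t.1 (tPow t.1)).realize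
        (fun (_ : Fin 1) => (tow H : ℤ)) = t.1.realize (fun (_ : Fin 1) => (tow H : ℤ)) +
          2 ^ (t.1.realize (fun (_ : Fin 1) => (tow H : ℤ))).toNat := rfl
    rw [h0, ← hs, Int.toNat_natCast]
    push_cast
    rfl
  have h4 := hH _ hm ((s + 2 ^ s : ℕ) : ℤ) x y hr hx hy (by
    have : (c.toNat : ℤ) < s := by exact_mod_cast hcs
    have h5 := Int.self_le_toNat c
    push_cast
    have h6 : (0 : ℤ) < 2 ^ s := by positivity
    omega) h1 h2
  apply h4
  rw [h3, hn, Int.toNat_natCast, pow_add]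
  push_cast
  rw [← pow_mul]

end Pool.Agent.UnivT
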